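import Pool.Agent.Helper23.SM.Fi

set_option autoImplicit false

namespace Pool.Agent.Results.MP_5b7390_lc.ModelPhi4Phi5

open Pool.Agent.Helper23.WT (ZF)
open Pool.Agent.Helper23.SM

/-- There is a model of ZF in which IDI, WOAC_fin and M(C(not countable), at least 2^(aleph_0)) hold
while CAC(C, M_le), CPM_le(C, C) and CMC_omega fail. -/
theorem result : ∃ (M : Type) (E : M → M → Prop), ZF E ∧
    (IDI E ∧ WOACfin E ∧ MCuncountable E) ∧ (¬ CACle E ∧ ¬ CPMle E ∧ ¬ CMComega E) := by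
  obtain ⟨𝔐, h⟩ := exists_mod FA FA_countable FG (Classical.arbitrary Cond)
  exact ⟨𝔐.G.M, 𝔐.G.E, 𝔐.G.zf, ⟨𝔐.idi, 𝔐.woac, 𝔐.mcuncountable⟩,
    𝔐.not_cac h, 𝔐.not_cpm h, 𝔐.not_cmc h⟩

end Pool.Agent.Results.MP_5b7390_lc.ModelPhi4Phi5
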